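import Pool.Agent.EDX.Stmts1

set_option autoImplicit false

namespace Pool.Agent.EDX.H23

open Polynomial Finset Pool.Agent.EDG Pool.Agent.EDX

theorem dvd_sub_modBM (g p : ℚ[X]) : g ∣ p - p %ₘ g := by
  refine ⟨p /ₘ g, ?_⟩
  have h := modByMonic_add_div p g
  calc p - p %ₘ g = (p %ₘ g + g * (p /ₘ g)) - p %ₘ g := by rw [h]
    _ = g * (p /ₘ g) := by ring

theorem pol_coeffs {n D : ℕ} (p : Fin n → ℚ[X]) (hp : ∀ i, (p i).degree < (D : WithBot ℕ)) (i : Fin n) :
    pol (fun x : Fin n × Fin D => (p x.1).coeff x.2) i = p i := by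
  ext m
  by_cases hm : m < D
  · have := pol_coeff (fun x : Fin n × Fin D => (p x.1).coeff x.2) i ⟨m, hm⟩
    simpa using this
  · have h1 : (pol (fun x : Fin n × Fin D => (p x.1).coeff x.2) i).coeff m = 0 := by
      apply coeff_eq_zero_of_degree_lt
      refine (pol_degree_lt _ i).trans_le ?_
      exact_mod_cast (not_lt.mp hm)
    have h2 : (p i).coeff m = 0 := by
      apply coeff_eq_zero_of_degree_lt
      refine (hp i).trans_le ?_
      exact_mod_cast (not_lt.mp hm)
    rw [h1, h2]

theorem wmu : WmuStmt := by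
  intro n g hg q k r w P hP hw f hf
  set gq : ℚ[X] := g.map (Int.castRingHom ℚ) with hgq
  have hgm : gq.Monic := hg.monic.map _
  have hgd : gq.degree = (g.natDegree : WithBot ℕ) := by
    rw [degree_eq_natDegree hgm.ne_zero, hgq, hg.monic.natDegree_map]
  -- reduction to the basis
  have key : ∀ e < r, (mulF (w.map iK) (mu n g P)) (hK e) = mu n g (act n g w P) (hK e) := by
    intro e he
    rw [mulF_apply, mu_hK]
    obtain ⟨a, ha, hsum⟩ := hw e he
    have h1 : w.map iK * hK e = ∑ e' ∈ range (2 ^ k), iK (a e') • hK e' := by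
      rw [hK, ← Polynomial.map_mul, hsum, Polynomial.map_sum]
      apply sum_congr rfl
      intro e' _
      rw [Polynomial.map_mul, map_C, smul_eq_C_mul, hK]
    rw [h1, map_sum]
    have h2 : ∀ e' ∈ range (2 ^ k), mu n g P (iK (a e') • hK e') =
        iQ ((a e').map (Int.castRingHom ℚ) * NP ℚ n g P e') := by
      intro e' _
      rw [map_smul, mu_hK, map_mul, iQ_map, smul_eq_mul]
    rw [sum_congr rfl h2, ← map_sum]
    congr 1
    set S : ℚ[X] := ∑ e' ∈ range (2 ^ k), (a e').map (Int.castRingHom ℚ) * NP ℚ n g P e' with hS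
    -- degree of S
    have hSd : S.degree < gq.degree := by
      rw [hgd, hS, degree_lt_iff_coeff_zero]
      intro m hm
      rw [finset_sum_coeff]
      apply sum_eq_zero
      intro e' he'
      rw [coeff_mul]
      apply sum_eq_zero
      rintro ⟨i, j⟩ hij
      rw [HasAntidiagonal.mem_antidiagonal] at hij
      by_cases hi : i ≤ q
      · have hj : (NP ℚ n g P e').coeff j = 0 := by
          apply hP e' (mem_range.mp he') j
          simp only at hij
          omega
        simp [hj]
      · have hi' : (a e').coeff i = 0 := by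
          apply coeff_eq_zero_of_degree_lt
          refine (ha e').trans_le ?_
          have : q + 1 ≤ i := by omega
          exact_mod_cast this
        simp [coeff_map, hi']
    have hSm : S %ₘ gq = S := (modByMonic_eq_self_iff hgm).mpr hSd
    rw [← hSm]
    unfold NP
    apply modByMonic_eq_of_dvd_sub hgm
    -- the middle polynomial
    have hmid : ∑ e' ∈ range (2 ^ k), (a e').map (Int.castRingHom ℚ) *
        (∑ i : Fin n, (ev (X : ℤ[X]) (Yp i) (h e')).map (Int.castRingHom ℚ) * pol P i) =
        ∑ i : Fin n, (ev (X : ℤ[X]) (Yp i) (h e)).map (Int.castRingHom ℚ) *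
          ((ev (X : ℤ[X]) (Yp i) w).map (Int.castRingHom ℚ) * pol P i) := by
      simp_rw [mul_sum]
      rw [sum_comm]
      apply sum_congr rfl
      intro i _
      have h3 : ev (X : ℤ[X]) (Yp i) w * ev (X : ℤ[X]) (Yp i) (h e) =
          ∑ e' ∈ range (2 ^ k), a e' * ev (X : ℤ[X]) (Yp i) (h e') := by
        rw [← map_mul, hsum, map_sum]
        apply sum_congr rfl
        intro e' _
        rw [map_mul, ev_C, aeval_def]
        congr 1
        have h6 : ∀ φ : ℤ →+* ℤ[X], eval₂ φ X (a e') = a e' := by
          intro φ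
          rw [show φ = C from RingHom.ext_int _ _, eval₂_C_X]
        exact h6 _
      have h4 := congrArg (fun p : ℤ[X] => p.map (Int.castRingHom ℚ)) h3
      simp only [Polynomial.map_mul, Polynomial.map_sum] at h4
      calc ∑ e' ∈ range (2 ^ k), (a e').map (Int.castRingHom ℚ) *
            ((ev (X : ℤ[X]) (Yp i) (h e')).map (Int.castRingHom ℚ) * pol P i)
          = (∑ e' ∈ range (2 ^ k), (a e').map (Int.castRingHom ℚ) *
            (ev (X : ℤ[X]) (Yp i) (h e')).map (Int.castRingHom ℚ)) * pol P i := by
            rw [sum_mul]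
            exact sum_congr rfl fun _ _ => by ring
        _ = _ := by rw [← h4]; ring
    have hA : gq ∣ S - ∑ e' ∈ range (2 ^ k), (a e').map (Int.castRingHom ℚ) *
        (∑ i : Fin n, (ev (X : ℤ[X]) (Yp i) (h e')).map (Int.castRingHom ℚ) * pol P i) := by
      rw [hS, ← sum_sub_distrib]
      apply dvd_sum
      intro e' _
      rw [← mul_sub]
      apply Dvd.dvd.mul_left
      rw [← neg_sub, dvd_neg]
      exact dvd_sub_modBM _ _
    have hB' : gq ∣ (∑ i : Fin n, (ev (X : ℤ[X]) (Yp i) (h e)).map (Int.castRingHom ℚ) *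
          ((ev (X : ℤ[X]) (Yp i) w).map (Int.castRingHom ℚ) * pol P i)) -
        ∑ i : Fin n, (ev (X : ℤ[X]) (Yp i) (h e)).map (Int.castRingHom ℚ) *
          pol (act n g w P) i := by
      rw [← sum_sub_distrib]
      apply dvd_sum
      intro i _
      rw [← mul_sub]
      apply Dvd.dvd.mul_left
      have h5 : pol (act n g w P) i =
          ((ev (X : ℤ[X]) (Yp i) w).map (Int.castRingHom ℚ) * pol P i) %ₘ gq := by
        have := pol_coeffs (D := g.natDegree)
          (fun i : Fin n => ((ev (X : ℤ[X]) (Yp i) w).map (Int.castRingHom ℚ) * pol P i) %ₘ gq)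
          (fun i => by
            have := degree_modByMonic_lt
              ((ev (X : ℤ[X]) (Yp i) w).map (Int.castRingHom ℚ) * pol P i) hgm
            rwa [hgd] at this) i
        exact this
      rw [h5]
      exact dvd_sub_modBM _ _
    have := dvd_add hA hB'
    rw [hmid] at this
    simpa using this
  have := ext_hK _ _ r key f hf
  rwa [mulF_apply] at this

end Pool.Agent.EDX.H23
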